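import Pool.Agent.Q66.SH.Stm

/-!
Lemma job SH-GL1 of project SH (helper66), row MP_dcad15_an.
-/

set_option autoImplicit false

open Filter Topology
open scoped ENNReal

namespace Pool.Agent.Q86.SH

open Pool.Agent.Q66.SH

section
variable {H : Type} [NormedAddCommGroup H] [InnerProductSpace ℂ H]

/-- The state of the recursion after `n` steps. -/
def Inv (b : HilbertBasis ℕ ℂ H) (q p : ℝ≥0∞) (A : ℕ → (H →L[ℂ] H)) (η : ℝ≥0∞) (n : ℕ) : Prop :=
  ∃ (C : ℕ → (H →L[ℂ] H)) (k : ℕ → ℕ) (m M : ℕ) (ε c : ℕ → ℝ),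
    Monotone k ∧ (∀ j, n ≤ j → k j = k n) ∧ 1 ≤ M ∧ (∀ i, ε i = 1 ∨ ε i = -1) ∧
    (∀ i j, i ≤ j → j < m → c j ≤ c i) ∧ (∀ i < m, (M : ℝ) ^ (-(1 / q.toReal)) ≤ c i) ∧
    ∑ j ∈ Finset.range n, C j = ∑ i ∈ Finset.range m, ((ε i * c i : ℝ) : ℂ) • A i ∧
    ∑ i ∈ Finset.range m, c i ^ q.toReal = (n : ℝ) ∧
    (∀ j < n, InS p (C j) 1) ∧
    ∀ j < n, N p (C j - (P b (k (j + 1)) - P b (k j)) * C j * (P b (k (j + 1)) - P b (k j))) ≤ η

lemma inv_zero (b : HilbertBasis ℕ ℂ H) (q p : ℝ≥0∞) (A : ℕ → (H →L[ℂ] H)) (η : ℝ≥0∞) :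
    Inv b q p A η 0 := by
  refine ⟨fun _ => 0, fun _ => 0, 0, 1, fun _ => 1, fun _ => 1, fun _ _ _ => le_rfl,
    fun _ _ => rfl, le_rfl, fun _ => Or.inl rfl, fun _ _ _ _ => le_rfl, ?_, ?_, ?_, ?_, ?_⟩
  · intro i hi; omega
  · simp
  · simp
  · intro j hj; omega
  · intro j hj; omega

lemma pow_one (M : ℕ) (hM : 1 ≤ M) (q : ℝ) (hq : 0 < q) :
    (M : ℝ) * ((M : ℝ) ^ (-(1 / q))) ^ q = 1 := by
  have hM' : (0 : ℝ) < M := by exact_mod_cast hM
  rw [← Real.rpow_mul hM'.le]
  have : -(1 / q) * q = -1 := by field_simp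
  rw [this, Real.rpow_neg_one]
  exact mul_inv_cancel₀ hM'.ne'

end

theorem inv_step (hS : S_ST1) (hC : S_CUT) (H : Type) [NormedAddCommGroup H] [InnerProductSpace ℂ H]
    [CompleteSpace H] (b : HilbertBasis ℕ ℂ H) (q p : ℝ≥0∞) (hq : q ≠ 0) (hp : p ≠ 0) (hq2 : q < 2)
    (A : ℕ → (H →L[ℂ] H)) (hT : Test q p A) (η : ℝ≥0∞) (hη : η ≠ 0) (n : ℕ)
    (h : Inv b q p A η n) : Inv b q p A η (n + 1) := by
  have hqt : q ≠ ∞ := (lt_trans hq2 (by simp)).ne
  have hq0 : 0 < q.toReal := ENNReal.toReal_pos hq hqt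
  obtain ⟨C, k, m, M, ε, c, hk, hkc, hM, hε, hc, hcl, hsum, hpow, hIn, hN⟩ := h
  obtain ⟨δ, hδ, hcut⟩ := hC H b p hp η hη (k n)
  obtain ⟨M', hMM, hM1, ε', hε', h1, h2⟩ := hS H b q p hq hp hq2 A hT (k n) δ hδ m M
  set c' : ℝ := (M' : ℝ) ^ (-(1 / q.toReal)) with hc'
  set X : H →L[ℂ] H := ∑ i ∈ Finset.range M', ((ε' i * c' : ℝ) : ℂ) • A (m + i) with hX
  have hM'0 : (0 : ℝ) < M' := by exact_mod_cast hM1
  have hM0 : (0 : ℝ) < M := by exact_mod_cast hM
  have hc'0 : 0 ≤ c' := (Real.rpow_pos_of_pos hM'0 _).le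
  have hcc : c' ≤ (M : ℝ) ^ (-(1 / q.toReal)) := by
    apply Real.rpow_le_rpow_of_nonpos hM0 (by exact_mod_cast hMM)
    have : 0 < 1 / q.toReal := by positivity
    linarith
  have hXin : InS p X 1 := by
    have := hT M' (fun i => m + i) ε' (fun _ => c') hM1
      (fun i _ j _ hij => by simpa using hij) hε' (fun _ _ _ _ => le_rfl) (fun _ _ => hc'0)
    have hnq : nq q (fun _ => c') M' = 1 := by
      unfold nq
      rw [if_neg hqt, Finset.sum_const, Finset.card_range, nsmul_eq_mul, pow_one M' hM1 _ hq0,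
        Real.one_rpow]
    rw [hnq] at this
    exact this
  obtain ⟨l, hl, hNl⟩ := hcut X 1 hXin h1 h2
  refine ⟨fun j => if j < n then C j else X, fun j => if j ≤ n then k j else l, m + M', M',
    fun i => if i < m then ε i else ε' (i - m), fun i => if i < m then c i else c',
    ?_, ?_, hM1, ?_, ?_, ?_, ?_, ?_, ?_, ?_⟩
  · intro i j hij
    simp only
    split_ifs with h3 h4 h4
    · exact hk hij
    · exact (hk h3).trans hl
    · omega
    · exact le_rfl
  · intro j hj
    simp only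
    rw [if_neg (by omega), if_neg (by omega)]
  · intro i
    simp only
    split_ifs
    · exact hε i
    · exact hε' _
  · intro i j hij hj
    simp only
    split_ifs with h3 h4 h4
    · exact hc i j hij h3
    · omega
    · exact hcc.trans (hcl i h4)
    · exact le_rfl
  · intro i hi
    simp only
    split_ifs with h3
    · exact hcc.trans (hcl i h3)
    · exact le_rfl
  · rw [Finset.sum_range_succ, Finset.sum_range_add]
    congr 1
    · rw [Finset.sum_congr rfl (g := C) (fun j hj => by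
        simp [Finset.mem_range.mp hj]), hsum]
      apply Finset.sum_congr rfl
      intro i hi
      simp [Finset.mem_range.mp hi]
    · rw [if_neg (lt_irrefl n), hX]
      apply Finset.sum_congr rfl
      intro i hi
      have : ¬ (m + i < m) := by omega
      simp [this]
  · rw [Finset.sum_range_add]
    have e1 : ∑ i ∈ Finset.range m, (if i < m then c i else c') ^ q.toReal = (n : ℝ) := by
      rw [← hpow]
      apply Finset.sum_congr rfl
      intro i hi
      simp [Finset.mem_range.mp hi]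
    have e2 : ∑ i ∈ Finset.range M', (if m + i < m then c (m + i) else c') ^ q.toReal = 1 := by
      have : ∀ i ∈ Finset.range M', (if m + i < m then c (m + i) else c') ^ q.toReal
          = c' ^ q.toReal := by
        intro i hi
        have : ¬ (m + i < m) := by omega
        simp [this]
      rw [Finset.sum_congr rfl this, Finset.sum_const, Finset.card_range, nsmul_eq_mul,
        pow_one M' hM1 _ hq0]
    rw [e1, e2]
    push_cast
    ring
  · intro j hj
    simp only
    split_ifs with h3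
    · exact hIn j h3
    · exact hXin
  · intro j hj
    simp only
    rcases Nat.lt_succ_iff_lt_or_eq.mp hj with h3 | h3
    · rw [if_pos h3, if_pos (by omega : j + 1 ≤ n), if_pos h3.le]
      exact hN j h3
    · subst h3
      rw [if_neg (lt_irrefl j), if_neg (by omega : ¬ (j + 1 ≤ j)), if_pos le_rfl]
      exact hNl

theorem t_GL1 (hS : S_ST1) (hC : S_CUT) : S_GL1 := by
  intro H _ _ _ b q p hq hp hq2 A hT n hn η hη
  have hqt : q ≠ ∞ := (lt_trans hq2 (by simp)).ne
  have hq0 : 0 < q.toReal := ENNReal.toReal_pos hq hqt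
  have hinv : ∀ n, Inv b q p A η n := by
    intro n
    induction n with
    | zero => exact inv_zero b q p A η
    | succ n ih => exact inv_step hS hC H b q p hq hp hq2 A hT η hη n ih
  obtain ⟨C, k, m, M, ε, c, hk, hkc, hM, hε, hc, hcl, hsum, hpow, hIn, hN⟩ := hinv n
  have hm : 1 ≤ m := by
    by_contra hm
    have : m = 0 := by omega
    subst this
    have h0 : (n : ℝ) = 0 := by rw [← hpow]; simp
    have h1 : n = 0 := by exact_mod_cast h0
    omega
  refine ⟨C, k, hk, hIn, ?_, hN⟩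
  have hM0 : (0 : ℝ) < M := by exact_mod_cast hM
  have := hT m (fun i => i) ε c hm (fun i _ j _ hij => hij) hε hc
    (fun i hi => (Real.rpow_pos_of_pos hM0 _).le.trans (hcl i hi))
  rw [hsum]
  have hnq : nq q c m = (n : ℝ) ^ (q⁻¹).toReal := by
    unfold nq
    rw [if_neg hqt, hpow, ENNReal.toReal_inv, one_div]
  rw [hnq] at this
  exact this

end Pool.Agent.Q86.SH
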