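import Pool.Agent.Q66.SH.Stm2

/-!
Lemma job SH-SVD of project SH (helper66), row MP_dcad15_an.
-/

set_option autoImplicit false

open Filter Topology
open scoped ENNReal

namespace Pool.Agent.Q86.SH

open Pool.Agent.Q66.SH

section
variable {H : Type} [NormedAddCommGroup H] [InnerProductSpace ℂ H] [CompleteSpace H]

omit [CompleteSpace H] in
lemma orth_ne_bot (hH : ¬ FiniteDimensional ℂ H) (W : Submodule ℂ H) [FiniteDimensional ℂ W] :
    Wᗮ ≠ ⊥ := by
  intro h
  rw [Submodule.orthogonal_eq_bot_iff] at h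
  subst h
  exact hH (Module.finite_def.mpr ((Submodule.fg_top _).mp (Module.finite_def.mp inferInstance)) )

lemma orth_inv (T : H →L[ℂ] H) (W : Submodule ℂ H)
    (hW : ∀ x ∈ W, ContinuousLinearMap.adjoint T (T x) ∈ W) :
    ∀ x ∈ Wᗮ, ContinuousLinearMap.adjoint T (T x) ∈ Wᗮ := by
  intro x hx
  rw [Submodule.mem_orthogonal] at hx ⊢
  intro w hw
  rw [ContinuousLinearMap.adjoint_inner_right, ← ContinuousLinearMap.adjoint_inner_left]
  exact hx _ (hW w hw)

lemma sup_inv (T : H →L[ℂ] H) (W : Submodule ℂ H) (x : H) (c : ℂ)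
    (hW : ∀ x ∈ W, ContinuousLinearMap.adjoint T (T x) ∈ W)
    (hx : ContinuousLinearMap.adjoint T (T x) = c • x) :
    ∀ z ∈ W ⊔ Submodule.span ℂ {x}, ContinuousLinearMap.adjoint T (T z) ∈ W ⊔ Submodule.span ℂ {x} := by
  intro z hz
  obtain ⟨w, hw, y, hy, rfl⟩ := Submodule.mem_sup.mp hz
  obtain ⟨a, rfl⟩ := Submodule.mem_span_singleton.mp hy
  rw [map_add, map_add]
  refine Submodule.add_mem _ (Submodule.mem_sup_left (hW w hw)) (Submodule.mem_sup_right ?_)
  rw [map_smul, map_smul, hx, smul_smul]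
  exact Submodule.mem_span_singleton.mpr ⟨_, rfl⟩

/-- The greedy sequence. -/
lemma exists_greedy (hG : S_GREEDY) (hH : ¬ FiniteDimensional ℂ H) (T : H →L[ℂ] H)
    (hT : IsCompactOperator T) :
    ∃ (e : ℕ → H) (σ : ℕ → ℝ) (W : ℕ → Submodule ℂ H),
      (∀ n, W (n + 1) = W n ⊔ Submodule.span ℂ {e n}) ∧ W 0 = ⊥ ∧
      ∀ n, e n ∈ (W n)ᗮ ∧ ‖e n‖ = 1 ∧ 0 ≤ σ n ∧
        ContinuousLinearMap.adjoint T (T (e n)) = ((σ n ^ 2 : ℝ) : ℂ) • e n ∧
        ∀ y ∈ (W n)ᗮ, ‖T y‖ ≤ σ n * ‖y‖ := by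
  let α := {W : Submodule ℂ H // FiniteDimensional ℂ W ∧
    ∀ x ∈ W, ContinuousLinearMap.adjoint T (T x) ∈ W}
  have h1 : ∀ W : α, ∃ (x : H) (σ : ℝ), x ∈ (W.1)ᗮ ∧ ‖x‖ = 1 ∧ 0 ≤ σ ∧
      ContinuousLinearMap.adjoint T (T x) = ((σ ^ 2 : ℝ) : ℂ) • x ∧
      ∀ y ∈ (W.1)ᗮ, ‖T y‖ ≤ σ * ‖y‖ := by
    intro W
    have := W.2.1
    exact hG H T hT (W.1)ᗮ (Submodule.isClosed_orthogonal _) (orth_ne_bot hH W.1)
      (orth_inv T W.1 W.2.2)
  choose X S hX using h1
  let nxt : α → α := fun W => ⟨W.1 ⊔ Submodule.span ℂ {X W}, by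
    have := W.2.1
    infer_instance, sup_inv T W.1 (X W) _ W.2.2 (hX W).2.2.2.1⟩
  let W0 : α := ⟨⊥, inferInstance, by
    intro x hx
    rw [Submodule.mem_bot] at hx
    subst hx
    simp⟩
  let Wn : ℕ → α := fun n => nxt^[n] W0
  refine ⟨fun n => X (Wn n), fun n => S (Wn n), fun n => (Wn n).1, ?_, rfl, fun n => hX (Wn n)⟩
  intro n
  have : Wn (n + 1) = nxt (Wn n) := Function.iterate_succ_apply' nxt n W0
  show (Wn (n + 1)).1 = _
  rw [this]

lemma norm_T (T : H →L[ℂ] H) (x : H) (σ : ℝ) (hx : ‖x‖ = 1) (hσ : 0 ≤ σ)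
    (h : ContinuousLinearMap.adjoint T (T x) = ((σ ^ 2 : ℝ) : ℂ) • x) : ‖T x‖ = σ := by
  have h1 : inner ℂ (T x) (T x) = ((σ ^ 2 : ℝ) : ℂ) := by
    rw [← ContinuousLinearMap.adjoint_inner_right, h, inner_smul_right,
      inner_self_eq_norm_sq_to_K, hx]
    simp
  have h3 := inner_self_eq_norm_sq (𝕜 := ℂ) (T x)
  rw [h1] at h3
  have h4 : RCLike.re (((σ ^ 2 : ℝ)) : ℂ) = σ ^ 2 := Complex.ofReal_re _
  have h2 : ‖T x‖ ^ 2 = σ ^ 2 := by rw [← h3, h4]
  exact (pow_left_inj₀ (norm_nonneg _) hσ two_ne_zero).mp h2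

omit [CompleteSpace H] in
/-- Extension of finite orthonormal families. -/
lemma ext_on (hH : ¬ FiniteDimensional ℂ H) (g : ℕ → H) (p : ℕ → Prop)
    (hp : ∀ m n, m ≤ n → p n → p m) (h1 : ∀ n, p n → ‖g n‖ = 1)
    (h2 : ∀ m n, m < n → p n → inner ℂ (g m) (g n) = 0) :
    ∃ f : ℕ → H, Orthonormal ℂ f ∧ ∀ n, p n → f n = g n := by
  classical
  by_cases hall : ∀ n, p n
  · refine ⟨g, ⟨fun n => h1 n (hall n), fun m n hmn => ?_⟩, fun _ _ => rfl⟩
    rcases lt_or_gt_of_ne hmn with h | h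
    · exact h2 m n h (hall n)
    · exact inner_eq_zero_symm.mp (h2 n m h (hall m))
  push Not at hall
  obtain ⟨N, hN, hmin⟩ : ∃ N, ¬ p N ∧ ∀ n < N, p n :=
    ⟨Nat.find hall, Nat.find_spec hall, fun n hn => not_not.mp (Nat.find_min hall hn)⟩
  have hlt : ∀ n, p n → n < N := by
    intro n hn
    by_contra hge
    exact hN (hp N n (not_lt.mp hge) hn)
  let W : Submodule ℂ H := Submodule.span ℂ (g '' Set.Iio N)
  have hWf : FiniteDimensional ℂ W := FiniteDimensional.span_of_finite ℂ ((Set.finite_Iio N).image g)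
  obtain ⟨h, hh1, hh2⟩ := exists_seq_of_forall_finset_exists
    (fun x : H => ‖x‖ = 1 ∧ x ∈ Wᗮ) (fun x y : H => inner ℂ x y = 0) (by
      intro s _
      let U : Submodule ℂ H := W ⊔ Submodule.span ℂ (s : Set H)
      have : FiniteDimensional ℂ (Submodule.span ℂ (s : Set H)) :=
        FiniteDimensional.span_finset ℂ s
      have hU : FiniteDimensional ℂ U := by
        show FiniteDimensional ℂ (W ⊔ Submodule.span ℂ (s : Set H) : Submodule ℂ H)
        infer_instance
      obtain ⟨y, hy, hy0⟩ := Submodule.exists_mem_ne_zero_of_ne_bot (orth_ne_bot hH U)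
      refine ⟨((‖y‖⁻¹ : ℝ) : ℂ) • y, ⟨?_, ?_⟩, ?_⟩
      · rw [norm_smul, Complex.norm_real, norm_inv, norm_norm,
          inv_mul_cancel₀ (norm_ne_zero_iff.mpr hy0)]
      · exact Submodule.smul_mem _ _ (Submodule.orthogonal_le le_sup_left hy)
      · intro x hx
        rw [inner_smul_right]
        have : inner ℂ x y = 0 := by
          rw [Submodule.mem_orthogonal] at hy
          exact hy x (Submodule.mem_sup_right (Submodule.subset_span (by exact_mod_cast hx)))
        rw [this, mul_zero])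
  refine ⟨fun n => if n < N then g n else h (n - N), ⟨?_, ?_⟩, ?_⟩
  · intro n
    simp only
    split_ifs with h3
    · exact h1 n (hmin n h3)
    · exact (hh1 _).1
  · have key : ∀ m n, m < n → inner ℂ (if m < N then g m else h (m - N))
        (if n < N then g n else h (n - N)) = 0 := by
      intro m n hmn
      by_cases hn : n < N
      · rw [if_pos hn, if_pos (hmn.trans hn)]
        exact h2 m n hmn (hmin n hn)
      · rw [if_neg hn]
        by_cases hm : m < N
        · rw [if_pos hm]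
          have := (hh1 (n - N)).2
          rw [Submodule.mem_orthogonal] at this
          exact this _ (Submodule.subset_span ⟨m, hm, rfl⟩)
        · rw [if_neg hm]
          exact hh2 _ _ (by omega)
    intro m n hmn
    simp only
    rcases lt_or_gt_of_ne hmn with h3 | h3
    · exact key m n h3
    · exact inner_eq_zero_symm.mp (key n m h3)
  · intro n hn
    simp only
    rw [if_pos (hlt n hn)]

end

theorem t_SVD (hG : S_GREEDY) : S_SVD := by
  intro H _ _ _ hH T hT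
  obtain ⟨e, σ, W, hW, hW0, hprop⟩ := exists_greedy hG hH T hT
  have hmono : Monotone W := monotone_nat_of_le_succ (fun n => by rw [hW n]; exact le_sup_left)
  have hmem : ∀ n, e n ∈ W (n + 1) := by
    intro n
    rw [hW n]
    exact Submodule.mem_sup_right (Submodule.mem_span_singleton_self _)
  have hoe : ∀ m n, m < n → inner ℂ (e m) (e n) = 0 := by
    intro m n hmn
    have h1 : e m ∈ W n := hmono (Nat.succ_le_of_lt hmn) (hmem m)
    have h2 := (hprop n).1
    rw [Submodule.mem_orthogonal] at h2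
    exact h2 _ h1
  have he : Orthonormal ℂ e := by
    refine ⟨fun n => (hprop n).2.1, fun m n hmn => ?_⟩
    rcases lt_or_gt_of_ne hmn with h | h
    · exact hoe m n h
    · exact inner_eq_zero_symm.mp (hoe n m h)
  have hTn : ∀ n, ‖T (e n)‖ = σ n := fun n =>
    norm_T T (e n) (σ n) (hprop n).2.1 (hprop n).2.2.1 (hprop n).2.2.2.1
  have hTo : ∀ m n, m ≠ n → inner ℂ (T (e m)) (T (e n)) = 0 := by
    intro m n hmn
    rw [← ContinuousLinearMap.adjoint_inner_right, (hprop n).2.2.2.1, inner_smul_right,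
      he.2 hmn, mul_zero]
  have hanti : Antitone σ := by
    apply antitone_nat_of_succ_le
    intro n
    have h1 := (hprop n).2.2.2.2 (e (n + 1))
      (Submodule.orthogonal_le (hmono (Nat.le_succ n)) (hprop (n + 1)).1)
    rw [hTn, (hprop (n + 1)).2.1, mul_one] at h1
    exact h1
  have hpos : ∀ n, 0 ≤ σ n := fun n => (hprop n).2.2.1
  have hlim : Tendsto σ atTop (𝓝 0) := by
    have hbdd : BddBelow (Set.range σ) := ⟨0, by rintro _ ⟨n, rfl⟩; exact hpos n⟩
    have h1 := tendsto_atTop_ciInf hanti hbdd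
    set c := ⨅ n, σ n with hc
    have hc0 : 0 ≤ c := le_ciInf hpos
    rcases hc0.eq_or_lt with h2 | h2
    · rwa [← h2] at h1
    exfalso
    have hcle : ∀ n, c ≤ σ n := fun n => ciInf_le hbdd n
    obtain ⟨K, hK, hKs⟩ := hT.image_closedBall_subset_compact 1
    have hin : ∀ n, T (e n) ∈ K := fun n => hKs ⟨e n, by simp [(hprop n).2.1], rfl⟩
    obtain ⟨a, _, φ, hφ, hφl⟩ := hK.tendsto_subseq hin
    have hcau := hφl.cauchySeq
    rw [Metric.cauchySeq_iff] at hcau
    obtain ⟨N, hN⟩ := hcau c h2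
    have h3 := hN N le_rfl (N + 1) (Nat.le_succ N)
    simp only [Function.comp_apply] at h3
    rw [dist_eq_norm] at h3
    have hne : φ N ≠ φ (N + 1) := (hφ (Nat.lt_succ_self N)).ne
    have h4 : ‖T (e (φ N)) - T (e (φ (N + 1)))‖ ^ 2 =
        ‖T (e (φ N))‖ ^ 2 + ‖T (e (φ (N + 1)))‖ ^ 2 := by
      rw [@norm_sub_sq ℂ, hTo _ _ hne]
      simp
    rw [hTn, hTn] at h4
    have h5 := hcle (φ N)
    have h6 := hcle (φ (N + 1))
    have h7 : c ^ 2 ≤ ‖T (e (φ N)) - T (e (φ (N + 1)))‖ ^ 2 := by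
      rw [h4]
      nlinarith [hpos (φ (N + 1))]
    have h8 := abs_le_of_sq_le_sq' h7 (norm_nonneg _)
    linarith [h8.2]
  obtain ⟨f, hf, hfg⟩ := ext_on hH (fun n => ((σ n)⁻¹ : ℂ) • T (e n)) (fun n => 0 < σ n)
    (fun m n hmn h => lt_of_lt_of_le h (hanti hmn))
    (fun n hn => by
      rw [norm_smul, norm_inv, Complex.norm_real, Real.norm_of_nonneg hn.le, hTn,
        inv_mul_cancel₀ hn.ne'])
    (fun m n hmn _ => by
      rw [inner_smul_left, inner_smul_right, hTo m n hmn.ne, mul_zero, mul_zero])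
  have hTe : ∀ n, (σ n : ℂ) • f n = T (e n) := by
    intro n
    rcases (hpos n).eq_or_lt with h | h
    · have : T (e n) = 0 := by rw [← norm_eq_zero, hTn, ← h]
      rw [this, ← h]
      simp
    · rw [hfg n h, smul_smul, mul_inv_cancel₀ (by exact_mod_cast h.ne'), one_smul]
  have horth : ∀ n (z : H), (∀ i < n, inner ℂ (e i) z = 0) → z ∈ (W n)ᗮ := by
    intro n
    induction n with
    | zero => intro z _; rw [hW0]; simp
    | succ n ih =>
      intro z hz
      rw [hW n, ← Submodule.inf_orthogonal, Submodule.mem_inf]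
      refine ⟨ih z (fun i hi => hz i (by omega)), ?_⟩
      rw [Submodule.mem_orthogonal_singleton_iff_inner_right]
      exact hz n (Nat.lt_succ_self n)
  refine ⟨σ, hanti, hpos, hlim, e, f, he, hf, fun x => ?_⟩
  unfold HasSum
  rw [SummationFilter.unconditional_filter, Metric.tendsto_atTop]
  intro ε hε
  have h1 : Tendsto (fun n => σ n * ‖x‖) atTop (𝓝 0) := by
    simpa using hlim.mul_const ‖x‖
  obtain ⟨n, hn⟩ := (h1.eventually (gt_mem_nhds hε)).exists
  refine ⟨Finset.range n, fun S hS => ?_⟩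
  rw [dist_comm, dist_eq_norm]
  set y : H := x - ∑ i ∈ S, inner ℂ (e i) x • e i with hy
  have hinner : ∀ i ∈ S, inner ℂ (e i) y = 0 := by
    intro i hi
    rw [hy, inner_sub_right, he.inner_right_sum _ hi, sub_self]
  have hsum : T x - ∑ j ∈ S, ((σ j : ℂ) * inner ℂ (e j) x) • f j = T y := by
    rw [hy, map_sub, map_sum]
    congr 1
    apply Finset.sum_congr rfl
    intro j _
    rw [map_smul, ← hTe j, smul_smul, mul_comm]
  have hyn : ‖y‖ ≤ ‖x‖ := by
    have h2 : inner ℂ y y = inner ℂ y x := by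
      conv_lhs => rw [hy]
      rw [← hy, inner_sub_right, inner_sum]
      have : ∑ i ∈ S, inner ℂ y (inner ℂ (e i) x • e i) = 0 := by
        apply Finset.sum_eq_zero
        intro i hi
        rw [inner_smul_right, inner_eq_zero_symm.mp (hinner i hi), mul_zero]
      rw [this, sub_zero]
    have h3 : ‖y‖ * ‖y‖ ≤ ‖y‖ * ‖x‖ := by
      have h4 := norm_inner_le_norm (𝕜 := ℂ) y x
      rw [← h2, inner_self_eq_norm_sq_to_K] at h4
      have h5 : ‖((‖y‖ : ℂ)) ^ 2‖ = ‖y‖ * ‖y‖ := by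
        rw [norm_pow, Complex.norm_real, norm_norm, sq]
      calc ‖y‖ * ‖y‖ = ‖((‖y‖ : ℂ)) ^ 2‖ := h5.symm
        _ ≤ _ := h4
    by_contra hlt
    push Not at hlt
    have : 0 < ‖y‖ := lt_of_le_of_lt (norm_nonneg x) hlt
    nlinarith
  rw [hsum]
  calc ‖T y‖ ≤ σ n * ‖y‖ := (hprop n).2.2.2.2 y (horth n y (fun i hi =>
        hinner i (hS (Finset.mem_range.mpr hi))))
    _ ≤ σ n * ‖x‖ := mul_le_mul_of_nonneg_left hyn (hpos n)
    _ < ε := hn

end Pool.Agent.Q86.SH
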